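import Pool.Agent.L7h66.UA.StmX

/-!
Project UA (helper66), part `CTX`: the number of the theories, structures with values in Polish spaces.
Adapted from helper29's proof of `S_CTH`.
-/

set_option autoImplicit false

namespace Pool.Agent.L7h18.UA.X

open Set Function MeasureTheory
open Pool.Agent.L7h66.UA

section liso

variable {a : ℕ → ℕ} {K : ℕ → Type} {n : ℕ} {x y z : XS a K ℕ}

lemma liso_trans {σ τ : Equiv.Perm ℕ} (h : LIsoX n x y σ) (h' : LIsoX n y z τ) :
    LIsoX n x z (τ * σ) := by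
  intro i hi v
  have e : (⇑(τ * σ) ∘ v) = τ ∘ (σ ∘ v) := rfl
  rw [e, h' i hi, h i hi]

lemma liso_symm {σ : Equiv.Perm ℕ} (h : LIsoX n x y σ) : LIsoX n y x σ⁻¹ := by
  intro i hi v
  have h1 := h i hi (⇑σ⁻¹ ∘ v)
  rw [← h1]
  congr 1
  funext j
  simp

lemma liso_of_xiso (h : XIso x y) : ∃ σ, LIsoX n x y σ := by
  obtain ⟨σ, h⟩ := h
  exact ⟨σ, fun i _ v => h i v⟩

end liso

/-- the space of the codes -/
abbrev Om (a : ℕ → ℕ) (K : ℕ → Type) : Type :=
  XS a K ℕ × (ℕ → ℕ → ℕ) × (ℕ → ℕ → ℕ) × (ℕ → ℕ)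

/-- the codes -/
def Yset {a : ℕ → ℕ} {K : ℕ → Type} (B : Set (XS a K ℕ)) (R : ℕ → ℕ → XS a K ℕ)
    (M : ℕ → ℕ → Prop) : Set (Om a K) :=
  {p | p.1 ∈ B ∧ (∀ n m k, p.2.2.1 n m = k → p.2.1 n k = m) ∧ (∀ n m k, p.2.1 n m = k → p.2.2.1 n k = m) ∧
    (∀ n i, i < n → ∀ (v u : Fin (a i) → ℕ) (k : ℕ), (∀ t, p.2.1 n (v t) = u t) → p.2.2.2 n = k →
      p.1 i u = R n k i v) ∧ ∀ n k, p.2.2.2 n = k → M n k}

section meas

variable {a : ℕ → ℕ} {K : ℕ → Type} [∀ i, TopologicalSpace (K i)] [∀ i, PolishSpace (K i)]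
    [∀ i, MeasurableSpace (K i)] [∀ i, BorelSpace (K i)]

lemma meas_Yset {B : Set (XS a K ℕ)} (hB : MeasurableSet B) (R : ℕ → ℕ → XS a K ℕ)
    (M : ℕ → ℕ → Prop) : MeasurableSet (Yset B R M) := by
  have e1 : ∀ n m k, MeasurableSet {p : Om a K | p.2.1 n m = k} := fun n m k =>
    (measurableSet_singleton k).preimage
      ((measurable_pi_apply m).comp ((measurable_pi_apply n).comp (measurable_fst.comp measurable_snd)))
  have e2 : ∀ n m k, MeasurableSet {p : Om a K | p.2.2.1 n m = k} := fun n m k =>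
    (measurableSet_singleton k).preimage
      ((measurable_pi_apply m).comp ((measurable_pi_apply n).comp
        (measurable_fst.comp (measurable_snd.comp measurable_snd))))
  have e3 : ∀ n k, MeasurableSet {p : Om a K | p.2.2.2 n = k} := fun n k =>
    (measurableSet_singleton k).preimage
      ((measurable_pi_apply n).comp (measurable_snd.comp (measurable_snd.comp measurable_snd)))
  have e4 : ∀ (i : ℕ) (u : Fin (a i) → ℕ) (b : K i), MeasurableSet {p : Om a K | p.1 i u = b} :=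
    fun i u b => (measurableSet_singleton b).preimage
      ((measurable_pi_apply u).comp ((measurable_pi_apply i).comp measurable_fst))
  have imp : ∀ (P Q : Om a K → Prop), MeasurableSet {p | P p} → MeasurableSet {p | Q p} →
      MeasurableSet {p | P p → Q p} := by
    intro P Q hP hQ
    have : {p : Om a K | P p → Q p} = {p | P p}ᶜ ∪ {p | Q p} := by
      ext p
      simp only [mem_ofPred_eq, mem_union, mem_compl_iff]
      tauto
    rw [this]
    exact hP.compl.union hQ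
  have all : ∀ {ι : Type} [Countable ι] (P : ι → Om a K → Prop), (∀ i, MeasurableSet {p | P i p}) →
      MeasurableSet {p | ∀ i, P i p} := by
    intro ι _ P hP
    have : {p : Om a K | ∀ i, P i p} = ⋂ i, {p | P i p} := by
      ext p
      simp
    rw [this]
    exact MeasurableSet.iInter hP
  have cst : ∀ (q : Prop), MeasurableSet {p : Om a K | q} := fun q => MeasurableSet.const q
  have h1 : MeasurableSet {p : Om a K | p.1 ∈ B} := hB.preimage measurable_fst
  have h2 : MeasurableSet {p : Om a K | ∀ n m k, p.2.2.1 n m = k → p.2.1 n k = m} :=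
    all _ fun n => all _ fun m => all _ fun k => imp _ _ (e2 n m k) (e1 n k m)
  have h3 : MeasurableSet {p : Om a K | ∀ n m k, p.2.1 n m = k → p.2.2.1 n k = m} :=
    all _ fun n => all _ fun m => all _ fun k => imp _ _ (e1 n m k) (e2 n k m)
  have h4 : MeasurableSet {p : Om a K | ∀ n i, i < n → ∀ (v u : Fin (a i) → ℕ) (k : ℕ),
      (∀ t, p.2.1 n (v t) = u t) → p.2.2.2 n = k → p.1 i u = R n k i v} :=
    all _ fun n => all _ fun i => imp _ _ (cst _) (all _ fun v => all _ fun u => all _ fun k =>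
      imp _ _ (all _ fun t => e1 n (v t) (u t)) (imp _ _ (e3 n k) (e4 i u _)))
  have h5 : MeasurableSet {p : Om a K | ∀ n k, p.2.2.2 n = k → M n k} :=
    all _ fun n => all _ fun k => imp _ _ (e3 n k) (cst _)
  exact h1.inter (h2.inter (h3.inter (h4.inter h5)))

end meas

/-- the isomorphism given by a code -/
lemma liso_Y {a : ℕ → ℕ} {K : ℕ → Type} {B : Set (XS a K ℕ)} {R : ℕ → ℕ → XS a K ℕ}
    {M : ℕ → ℕ → Prop} {p : Om a K}
    (hp : p ∈ Yset B R M) (n : ℕ) : ∃ σ, LIsoX n (R n (p.2.2.2 n)) p.1 σ := by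
  obtain ⟨-, h2, h3, h4, -⟩ := hp
  refine ⟨⟨p.2.1 n, p.2.2.1 n, fun m => h3 n m _ rfl, fun m => h2 n m _ rfl⟩, fun i hi v => ?_⟩
  exact h4 n i hi v _ _ (fun t => rfl) rfl

/-- the first step: uncountably many values -/
lemma of_values {a : ℕ → ℕ} {K : ℕ → Type} [∀ i, TopologicalSpace (K i)] [∀ i, PolishSpace (K i)]
    [∀ i, MeasurableSpace (K i)] [∀ i, BorelSpace (K i)] {B : Set (XS a K ℕ)} (hB : MeasurableSet B)
    (i : ℕ) (hc : ¬ (⋃ x : Fin (a i) → ℕ, Set.range fun M : B => M.1 i x).Countable) :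
    ∃ g : (ℕ → Bool) → XS a K ℕ, Continuous g ∧ (∀ c, g c ∈ B) ∧
      ∀ c d, XIso (g c) (g d) → c = d := by
  have hstd : StandardBorelSpace B := hB.standardBorel
  obtain ⟨h, h1, h2⟩ := Pool.Agent.H565R2.FO2.perfect_of_uncountable
    (Y := B) (X := XS a K ℕ) (Z := K i) (ι := Fin (a i) → ℕ)
    (fun M => M.1) measurable_subtype_coe
    (fun x M => M.1 i x)
    (fun x => (show Measurable (fun M : XS a K ℕ => M i x) from
      (measurable_pi_apply x).comp (measurable_pi_apply i)).comp measurable_subtype_coe)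
    (fun M N => XIso M.1 N.1) (by
      rintro M N ⟨e, he⟩ x
      exact ⟨e ∘ x, (he i x).symm⟩) hc
  refine ⟨fun c => (h c).1, h1, fun c => (h c).2, fun c d hcd => ?_⟩
  by_contra hne
  exact h2 c d hne hcd

theorem s_CTX (hR : S_REX) : S_CTX := by
  intro a K _ _ _ _ B hB hcell
  rcases B.eq_empty_or_nonempty with hE | ⟨x₀, hx₀⟩
  · subst hE
    exact Or.inr ⟨∅, countable_empty, empty_subset _, fun x hx => absurd hx (notMem_empty x)⟩
  by_cases hQ : ∀ i, (⋃ x : Fin (a i) → ℕ, Set.range fun M : B => M.1 i x).Countable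
  swap
  · push Not at hQ
    obtain ⟨i, hi⟩ := hQ
    exact Or.inl (of_values hB i hi)
  choose R0 hR0 hR1 using hR a K (fun i => ⋃ x : Fin (a i) → ℕ, Set.range fun M : B => M.1 i x) hQ
  have hR1 : ∀ n, ∀ M ∈ B, ∃ y ∈ R0 n, ∃ σ, LIsoX n y M σ := fun n M hM =>
    hR1 n M (hcell M hM n) fun i x => mem_iUnion.2 ⟨x, ⟨⟨M, hM⟩, rfl⟩⟩
  have hne : ∀ n, (R0 n).Nonempty := by
    intro n
    obtain ⟨y, hy, -⟩ := hR1 n x₀ hx₀
    exact ⟨y, hy⟩
  choose R hRr using fun n => (hR0 n).exists_eq_range (hne n)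
  set M : ℕ → ℕ → Prop := fun n k => ∀ j, j < k → ¬ ∃ σ, LIsoX n (R n j) (R n k) σ with hM
  -- surjectivity
  have hsurj : ∀ x ∈ B, ∃ p ∈ Yset B R M, p.1 = x := by
    classical
    intro x hx
    have h1 : ∀ n, ∃ k, ∃ σ, LIsoX n (R n k) x σ := by
      intro n
      obtain ⟨y, hy, σ, hσ⟩ := hR1 n x hx
      rw [hRr n] at hy
      obtain ⟨k, rfl⟩ := hy
      exact ⟨k, σ, hσ⟩
    have h2 : ∀ n, ∃ k, (∃ σ, LIsoX n (R n k) x σ) ∧ M n k := by
      intro n
      refine ⟨Nat.find (h1 n), Nat.find_spec (h1 n), fun j hj => ?_⟩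
      rintro ⟨σ, hσ⟩
      obtain ⟨τ, hτ⟩ := Nat.find_spec (h1 n)
      exact Nat.find_min (h1 n) hj ⟨τ * σ, liso_trans hσ hτ⟩
    choose k h3 h4 using h2
    choose σ h5 using h3
    refine ⟨(x, fun n => σ n, fun n => (σ n).symm, k), ⟨hx, ?_, ?_, ?_, ?_⟩, rfl⟩
    · intro n m j hj
      show σ n j = m
      have hj' : (σ n).symm m = j := hj
      rw [← hj', Equiv.apply_symm_apply]
    · intro n m j hj
      show (σ n).symm j = m
      have hj' : σ n m = j := hj
      rw [← hj', Equiv.symm_apply_apply]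
    · intro n i hi v u j hu hj
      have hj' : k n = j := hj
      have hu' : ∀ t, σ n (v t) = u t := hu
      have h6 := h5 n i hi v
      subst hj'
      have : u = ⇑(σ n) ∘ v := funext fun t => (hu' t).symm
      rw [this]
      exact h6
    · intro n j hj
      have hj' : k n = j := hj
      rw [← hj']
      exact h4 n
  by_cases hc : (⋃ _ : Unit, Set.range fun y : Yset B R M => y.1.2.2.2).Countable
  · right
    have hc' : (Set.range fun y : Yset B R M => y.1.2.2.2).Countable := by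
      rwa [iUnion_const] at hc
    have hch : ∀ k : (Set.range fun y : Yset B R M => y.1.2.2.2), ∃ y : Yset B R M, y.1.2.2.2 = k.1 :=
      fun k => k.2
    choose ch hch' using hch
    have : Countable (Set.range fun y : Yset B R M => y.1.2.2.2) := hc'.to_subtype
    refine ⟨Set.range fun k => (ch k).1.1, countable_range _, ?_, ?_⟩
    · rintro _ ⟨k, rfl⟩
      exact (ch k).2.1
    · intro x hx
      obtain ⟨p, hp, rfl⟩ := hsurj x hx
      set k : (Set.range fun y : Yset B R M => y.1.2.2.2) := ⟨p.2.2.2, ⟨⟨p, hp⟩, rfl⟩⟩ with hk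
      refine ⟨(ch k).1.1, ⟨k, rfl⟩, fun n => ?_⟩
      obtain ⟨σ, hσ⟩ := liso_Y hp n
      obtain ⟨τ, hτ⟩ := liso_Y (ch k).2 n
      have e : (ch k).1.2.2.2 = p.2.2.2 := hch' k
      rw [e] at hτ
      exact ⟨τ * σ⁻¹, liso_trans (liso_symm hσ) hτ⟩
  · left
    have hstd : StandardBorelSpace (Yset B R M) := (meas_Yset hB R M).standardBorel
    have hE : ∀ y y' : Yset B R M, XIso y.1.1 y'.1.1 → ∀ i : Unit, ∃ j : Unit,
        (fun (_ : Unit) (y : Yset B R M) => y.1.2.2.2) i y =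
          (fun (_ : Unit) (y : Yset B R M) => y.1.2.2.2) j y' := by
      intro y y' hyy' _
      refine ⟨(), ?_⟩
      funext n
      obtain ⟨σ, hσ⟩ := liso_Y y.2 n
      obtain ⟨τ, hτ⟩ := liso_Y y'.2 n
      obtain ⟨ρ, hρ⟩ := liso_of_xiso (n := n) hyy'
      have k1 : LIsoX n (R n (y.1.2.2.2 n)) (R n (y'.1.2.2.2 n)) (τ⁻¹ * (ρ * σ)) :=
        liso_trans (liso_trans hσ hρ) (liso_symm hτ)
      rcases lt_trichotomy (y.1.2.2.2 n) (y'.1.2.2.2 n) with h3 | h3 | h3
      · exact absurd ⟨_, k1⟩ (y'.2.2.2.2.2 n _ rfl _ h3)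
      · exact h3
      · exact absurd ⟨_, liso_symm k1⟩ (y.2.2.2.2.2 n _ rfl _ h3)
    obtain ⟨h, h1, h2⟩ := Pool.Agent.H565R2.FO2.perfect_of_uncountable
      (Y := Yset B R M) (X := XS a K ℕ) (Z := ℕ → ℕ) (ι := Unit)
      (fun y => y.1.1) (measurable_fst.comp measurable_subtype_coe)
      (fun _ y => y.1.2.2.2)
      (fun _ => (measurable_snd.comp (measurable_snd.comp measurable_snd)).comp measurable_subtype_coe)
      (fun y y' => XIso y.1.1 y'.1.1) hE hc
    refine ⟨fun c => (h c).1.1, h1, fun c => (h c).2.1, fun c d hcd => ?_⟩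
    by_contra hne
    exact h2 c d hne hcd

end Pool.Agent.L7h18.UA.X
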