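import Pool.Agent.L7h66.UA.Stm

set_option autoImplicit false

/-!
# Project UA: part INV
-/

namespace Pool.Agent.L7h18.UA

open Set Function
open Pool.Agent.L7h66.UA

variable {T : Tower} {I' : Type} {γ : ℕ → PM T} {q : I' → PM T} {P₀ : Set ℕ}
variable {c : ℕ → Bool}

/-- the piece of a point -/
def pc (w : AcS T γ q P₀ c) : Option ((ℕ ⊕ I') × ℕ) := pcS T (Sum.elim γ q) P₀ w.1

/-- the maps to `ℕ` -/
def al (n : ℕ) (w : AcS T γ q P₀ c) : ℕ := alS T (Sum.elim γ q) P₀ n w.1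

/-- `φ` is compatible with the system -/
def CmpA (φ : ℕ → (AcS T γ q P₀ c ≃ ℕ)) : Prop :=
  Cmp T (fun w : AcS T γ q P₀ c => pcS T (Sum.elim γ q) P₀ w.1)
    (fun n w => alS T (Sum.elim γ q) P₀ n w.1) φ

/-- the index `j` is used in the system for `c` -/
def Al (c : ℕ → Bool) (j : (ℕ ⊕ I') × ℕ) : Prop := ∀ k t, j = (Sum.inl k, t) → c k = true → t ≤ k

/-- the points of the pieces -/
def mk (j : (ℕ ⊕ I') × ℕ) (hj : Al c j)
    (u : Cp T (Sum.elim γ q j.1).ψ (Sum.elim γ q j.1).w) : AcS T γ q P₀ c :=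
  ⟨Sum.inr ⟨j, u⟩, fun k t h => hj k t (Option.some.inj h)⟩

/-- the base point of a piece -/
def bs (j : (ℕ ⊕ I') × ℕ) (hj : Al c j) : AcS T γ q P₀ c :=
  mk j hj ⟨(Sum.elim γ q j.1).w, cp_self (Sum.elim γ q j.1).hw⟩

/-- the piece -/
def Pc (j : (ℕ ⊕ I') × ℕ) : Set (AcS T γ q P₀ c) := {w | pc w = some j}

theorem pc_mk (j : (ℕ ⊕ I') × ℕ) (hj : Al c j)
    (u : Cp T (Sum.elim γ q j.1).ψ (Sum.elim γ q j.1).w) :
    pc (mk j hj u : AcS T γ q P₀ c) = some j := rfl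

theorem exists_mk {w : AcS T γ q P₀ c} {j : (ℕ ⊕ I') × ℕ} (hw : pc w = some j) :
    ∃ (hj : Al c j) (u : Cp T (Sum.elim γ q j.1).ψ (Sum.elim γ q j.1).w), w = mk j hj u := by
  obtain ⟨w, hm⟩ := w
  rcases w with v | ⟨j', u⟩
  · exact absurd hw (by simp [pc, pcS])
  · have : j' = j := Option.some.inj hw
    subst this
    exact ⟨fun k t e hc => hm k t (by rw [← e]; rfl) hc, u, rfl⟩

theorem exists_inl {w : AcS T γ q P₀ c} (hw : pc w = none) :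
    ∃ (v : P₀) (hm : Sum.inl v ∈ AcS T γ q P₀ c), w = ⟨Sum.inl v, hm⟩ := by
  obtain ⟨w, hm⟩ := w
  rcases w with v | ⟨j', u⟩
  · exact ⟨v, hm, rfl⟩
  · exact absurd hw (by simp [pc, pcS])

theorem piece_surj (hs : Sat T P₀) (n : ℕ) (w : AcS T γ q P₀ c) (hw : al n w ∉ T.D n) (v : ℕ)
    (hv : v ∈ T.B n (al n w)) : ∃ u : AcS T γ q P₀ c, pc u = pc w ∧ al n u = v := by
  obtain ⟨w, hm⟩ := w
  rcases w with v₀ | ⟨j, u⟩
  · have hw' : (v₀ : ℕ) ∉ T.D n := hw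
    have hv' : v ∈ T.B n (v₀ : ℕ) := hv
    have hP : v ∈ P₀ := by
      by_cases h : ∀ m, (v₀ : ℕ) ∉ T.D m
      · exact hs.2 v₀ v₀.2 h n hv'
      · push Not at h
        obtain ⟨m, hm'⟩ := h
        rcases le_total n m with hnm | hnm
        · exact hs.1 m (T.B_D_le hnm hw' hm' hv')
        · exact absurd (T.D_le hnm hm') hw'
    exact ⟨⟨Sum.inl ⟨v, hP⟩, fun k t h => by simp [pcS] at h⟩, rfl, rfl⟩
  · have hw' : (Sum.elim γ q j.1).ψ n u ∉ T.D n := hw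
    have hv' : v ∈ T.B n ((Sum.elim γ q j.1).ψ n u) := hv
    have h1 : ((Sum.elim γ q j.1).ψ n).symm v ∈ Cp T (Sum.elim γ q j.1).ψ u := by
      refine ⟨n, ?_⟩
      rw [Equiv.apply_symm_apply]
      exact hv'
    refine ⟨⟨Sum.inr ⟨j, ⟨((Sum.elim γ q j.1).ψ n).symm v,
      (Sum.elim γ q j.1).coh.cp_trans (Sum.elim γ q j.1).hw u.2 h1⟩⟩,
      fun k t h hc => hm k t h hc⟩, rfl, ?_⟩
    exact Equiv.apply_symm_apply _ _

section one

variable {φ : ℕ → (AcS T γ q P₀ c ≃ ℕ)} (h : CmpA φ)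
include h

theorem ex_s (n : ℕ) (w : AcS T γ q P₀ c) : ∃ s ∈ T.S n, φ n w = s (al n w) := by
  by_cases hw : al n w ∈ T.D n
  · exact ⟨1, (T.S n).one_mem, h.1 n w hw⟩
  · obtain ⟨s, hs, h1⟩ := h.2 n w hw
    exact ⟨s, hs, h1 w rfl (T.B_self n _ hw)⟩

theorem d_iff (n : ℕ) (w : AcS T γ q P₀ c) : φ n w ∈ T.D n ↔ al n w ∈ T.D n := by
  obtain ⟨s, hs, e⟩ := ex_s h n w
  rw [e, T.D_S hs]

theorem al_not {w : AcS T γ q P₀ c} (hw : w ∉ Din T φ) (n : ℕ) : al n w ∉ T.D n := fun h1 =>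
  hw ⟨n, (d_iff h n w).2 h1⟩

theorem atom_iff (hs : Sat T P₀) (n : ℕ) (w u : AcS T γ q P₀ c) (hw : al n w ∉ T.D n) :
    φ n u ∈ T.B n (φ n w) ↔ pc u = pc w ∧ al n u ∈ T.B n (al n w) := by
  obtain ⟨s, hs', h1⟩ := h.2 n w hw
  have ew : φ n w = s (al n w) := h1 w rfl (T.B_self n _ hw)
  constructor
  · intro h2
    have e : s (s⁻¹ (φ n u)) = φ n u := s.apply_symm_apply _
    have hv : s⁻¹ (φ n u) ∈ T.B n (al n w) := (T.B_S hs' hw _).1 (by rw [e, ← ew]; exact h2)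
    obtain ⟨u', hu1, hu2⟩ := piece_surj hs n w hw _ hv
    have h3 : φ n u' = φ n u := by
      have h4 : φ n u' = s (al n u') := h1 u' hu1 (by rw [← hu2] at hv; exact hv)
      rw [h4, hu2, e]
    have h5 := (φ n).injective h3
    subst h5
    exact ⟨hu1, by rw [← hu2] at hv; exact hv⟩
  · rintro ⟨h2, h3⟩
    have h4 : φ n u = s (al n u) := h1 u h2 h3
    rw [h4, ew]
    exact (T.B_S hs' hw _).2 h3

theorem not_din {w : AcS T γ q P₀ c} {j : (ℕ ⊕ I') × ℕ} (hw : pc w = some j) : w ∉ Din T φ := by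
  rintro ⟨n, hn⟩
  rw [d_iff h] at hn
  obtain ⟨hj, u, rfl⟩ := exists_mk hw
  exact (Sum.elim γ q j.1).coh.cp_not (Sum.elim γ q j.1).hw u.2 ⟨n, hn⟩

theorem ty_mk (j : (ℕ ⊕ I') × ℕ) (hj : Al c j)
    (u : Cp T (Sum.elim γ q j.1).ψ (Sum.elim γ q j.1).w) :
    Ty T φ (mk j hj u) (Sum.elim γ q j.1).ψ u.1 := by
  intro n
  obtain ⟨s, hs, e⟩ := ex_s h n (mk j hj u)
  refine ⟨s⁻¹, (T.S n).inv_mem hs, ?_⟩
  rw [e]
  exact (s.symm_apply_apply _).symm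

theorem ty_inl (v : P₀) (hm : Sum.inl v ∈ AcS T γ q P₀ c) :
    Ty T φ (⟨Sum.inl v, hm⟩ : AcS T γ q P₀ c) (fun _ => Equiv.refl ℕ) v.1 := by
  intro n
  obtain ⟨s, hs, e⟩ := ex_s h n ⟨Sum.inl v, hm⟩
  refine ⟨s⁻¹, (T.S n).inv_mem hs, ?_⟩
  rw [e]
  exact (s.symm_apply_apply _).symm

theorem cp_piece (hs : Sat T P₀) {w : AcS T γ q P₀ c} {j : (ℕ ⊕ I') × ℕ} (hw : pc w = some j) :
    Cp T φ w = Pc j := by
  ext w'
  have hd := al_not h (not_din h hw)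
  constructor
  · rintro ⟨n, hn⟩
    exact ((atom_iff h hs n w w' (hd n)).1 hn).1.trans hw
  · intro hw'
    obtain ⟨hj, u, rfl⟩ := exists_mk hw
    obtain ⟨hj', u', rfl⟩ := exists_mk hw'
    have h1 : u'.1 ∈ Cp T (Sum.elim γ q j.1).ψ u.1 := by
      rw [(Sum.elim γ q j.1).coh.cp_eq (Sum.elim γ q j.1).hw u.2]
      exact u'.2
    obtain ⟨n, hn⟩ := h1
    exact ⟨n, (atom_iff h hs n _ _ (hd n)).2 ⟨rfl, hn⟩⟩

theorem cp_none (hs : Sat T P₀) {w w' : AcS T γ q P₀ c} (hw : pc w = none) (hd : w ∉ Din T φ)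
    (hw' : w' ∈ Cp T φ w) : pc w' = none := by
  obtain ⟨n, hn⟩ := hw'
  exact ((atom_iff h hs n w w' (al_not h hd n)).1 hn).1.trans hw

theorem mem_bs (hs : Sat T P₀) (j : (ℕ ⊕ I') × ℕ) (hj : Al c j)
    (u : Cp T (Sum.elim γ q j.1).ψ (Sum.elim γ q j.1).w) :
    (mk j hj u : AcS T γ q P₀ c) ∈ Cp T φ (bs j hj) :=
  (Set.ext_iff.1 (cp_piece h hs (w := bs j hj) (j := j) rfl) _).2 rfl

theorem cp_bs (hs : Sat T P₀) (j : (ℕ ⊕ I') × ℕ) (hj : Al c j) :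
    Cp T φ (bs j hj : AcS T γ q P₀ c) = Pc j := cp_piece h hs (w := bs j hj) (j := j) rfl

/-- copies of the same component are isomorphic -/
theorem ce_same (hs : Sat T P₀) {i : ℕ ⊕ I'} {t t' : ℕ} {w : AcS T γ q P₀ c}
    (hw : pc w = some (i, t)) (hj' : Al c (i, t')) : CE T φ w φ (bs (i, t') hj') := by
  obtain ⟨hj, u, rfl⟩ := exists_mk hw
  refine ⟨mk (i, t') hj' u, mem_bs h hs (i, t') hj' u, ?_⟩
  · exact (ty_mk h (i, t) hj u).trans (ty_mk h (i, t') hj' u).symm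

end one

/-- the components isomorphic to that of `w` -/
def KS {A : Type} (T : Tower) (φ : ℕ → (A ≃ ℕ)) (w : A) : Set (Set A) :=
  {K | ∃ w', w' ∉ Din T φ ∧ K = Cp T φ w' ∧ CE T φ w φ w'}

theorem pc_inj {j j' : (ℕ ⊕ I') × ℕ} (hj : Al c j)
    (e : (Pc j : Set (AcS T γ q P₀ c)) = Pc j') : j = j' := by
  have h1 : (bs j hj : AcS T γ q P₀ c) ∈ (Pc j' : Set (AcS T γ q P₀ c)) := by
    rw [← e]
    exact pc_mk _ _ _
  exact Option.some.inj h1

theorem ks_inf {φ : ℕ → (AcS T γ q P₀ c ≃ ℕ)} (h : CmpA φ) (hs : Sat T P₀) (w : AcS T γ q P₀ c)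
    (i : ℕ ⊕ I') (hi : ∀ t, Al c (i, t)) (hc : ∀ t, CE T φ w φ (bs (i, t) (hi t))) :
    (KS T φ w).Infinite := by
  refine Set.infinite_of_injective_forall_mem
    (f := fun t : ℕ => (Pc (i, t) : Set (AcS T γ q P₀ c))) ?_ ?_
  · intro t t' e
    have := pc_inj (hi t) e
    exact (Prod.mk.inj this).2
  · intro t
    refine ⟨bs (i, t) (hi t), not_din h (pc_mk _ _ _), ?_, hc t⟩
    exact (cp_piece h hs (pc_mk _ _ _)).symm

theorem ce_base (h2 : S_CEQ) (p : PM T) {u : ℕ} (hu : u ∈ Cp T p.ψ p.w) {W : Type}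
    {ψ : ℕ → (W ≃ ℕ)} (hψ : Coh T ψ) {w : W} (hw : w ∉ Din T ψ) (hc : CE T p.ψ u ψ w) :
    CE T p.ψ p.w ψ w := by
  have h3 : CE T p.ψ p.w p.ψ u := ⟨p.w, cp_symm p.hw hu, Ty.refl _ _⟩
  exact (h2 T ℕ ℕ W p.ψ p.ψ ψ p.coh p.coh hψ p.w u w p.hw (p.coh.cp_not p.hw hu) h3).2 hw hc

theorem ks_eq (h2 : S_CEQ) {φ : ℕ → (AcS T γ q P₀ c ≃ ℕ)} (h : CmpA φ) (hs : Sat T P₀)
    (hγ : ∀ k l, CE T (γ k).ψ (γ k).w (γ l).ψ (γ l).w → k = l)
    (hq : ∀ k i, ¬ CE T (γ k).ψ (γ k).w (q i).ψ (q i).w)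
    (hP : ∀ v ∈ P₀, (∀ n, v ∉ T.D n) → ∃ i, CE T (q i).ψ (q i).w (fun _ => Equiv.refl ℕ) v)
    {k t : ℕ} {w : AcS T γ q P₀ c} (hw : pc w = some (Sum.inl k, t)) :
    KS T φ w = (fun t' : ℕ => (Pc (Sum.inl k, t') : Set (AcS T γ q P₀ c))) ''
      {t' | Al (I' := I') c (Sum.inl k, t')} := by
  ext K
  constructor
  · rintro ⟨w', hw', rfl, y, hy, hty⟩
    obtain ⟨hj, u, rfl⟩ := exists_mk hw
    have hty' : Ty T (γ k).ψ u.1 φ y := (ty_mk h (Sum.inl k, t) hj u).symm.trans hty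
    rcases hp : pc w' with _ | ⟨i', t'⟩
    · exfalso
      have hy1 := cp_none h hs hp hw' hy
      have hy2 : y ∉ Din T φ := by
        obtain ⟨n, hn⟩ := hy
        have h5 : φ n w' ∉ T.D n := fun h6 => hw' ⟨n, h6⟩
        intro h7
        have h8 : y ∉ Din T φ := by
          have h9 := hty.din
          rw [h9]
          exact not_din h (pc_mk _ _ _)
        exact h8 h7
      obtain ⟨v, hm, rfl⟩ := exists_inl hy1
      have hv : ∀ n, v.1 ∉ T.D n := fun n => al_not h hy2 n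
      obtain ⟨i, hi⟩ := hP v.1 v.2 hv
      have hvd : (v.1 : ℕ) ∉ Din T (fun _ => Equiv.refl ℕ) := by
        rintro ⟨n, hn⟩
        exact hv n hn
      have h3 : CE T (γ k).ψ u.1 (fun _ => Equiv.refl ℕ) v.1 :=
        ⟨v.1, cp_self hvd, hty'.trans (ty_inl h v hm)⟩
      have h4 := ce_base h2 (γ k) u.2 coh_refl hvd h3
      have h5 := (h2 T ℕ ℕ ℕ (q i).ψ (fun _ => Equiv.refl ℕ) (q i).ψ (q i).coh coh_refl (q i).coh
        (q i).w v.1 (q i).w (q i).hw hvd hi).1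
      exact hq k i ((h2 T ℕ ℕ ℕ (γ k).ψ (fun _ => Equiv.refl ℕ) (q i).ψ (γ k).coh coh_refl
        (q i).coh (γ k).w v.1 (q i).w (γ k).hw hvd h4).2 (q i).hw h5)
    · have hy1 : y ∈ (Pc (i', t') : Set (AcS T γ q P₀ c)) := by
        rw [← cp_piece h hs hp]
        exact hy
      obtain ⟨hj', u', rfl⟩ := exists_mk hy1
      have h3 : CE T (γ k).ψ u.1 (Sum.elim γ q i').ψ (Sum.elim γ q i').w :=
        ⟨u'.1, u'.2, hty'.trans (ty_mk h (i', t') hj' u')⟩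
      have h4 := ce_base h2 (γ k) u.2 (Sum.elim γ q i').coh (Sum.elim γ q i').hw h3
      rcases i' with l | i
      · have : k = l := hγ k l h4
        subst this
        exact ⟨t', hj', (cp_piece h hs hp).symm⟩
      · exact absurd h4 (hq k i)
  · rintro ⟨t', ht', rfl⟩
    exact ⟨bs (Sum.inl k, t') ht', not_din h (pc_mk _ _ _), (cp_piece h hs (pc_mk _ _ _)).symm,
      ce_same h hs hw ht'⟩

section iso

variable {A A' : Type} {φ : ℕ → (A ≃ ℕ)} {φ' : ℕ → (A' ≃ ℕ)} (f : A ≃ A')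
  (hf : ∀ n, ∃ g ∈ T.G n, ∀ w, φ' n (f w) = g (φ n w))
include hf

theorem iso_din (w : A) : f w ∈ Din T φ' ↔ w ∈ Din T φ := by
  refine exists_congr fun n => ?_
  obtain ⟨g, hg, e⟩ := hf n
  rw [e, T.D_G n g hg]

theorem iso_cp {w : A} (hw : w ∉ Din T φ) (u : A) : f u ∈ Cp T φ' (f w) ↔ u ∈ Cp T φ w := by
  refine exists_congr fun n => ?_
  obtain ⟨g, hg, e⟩ := hf n
  rw [e, e]
  exact T.B_G n g hg _ (fun h => hw ⟨n, h⟩) _

theorem iso_ty (w w' : A) : Ty T φ' (f w) φ' (f w') ↔ Ty T φ w φ w' := by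
  refine forall_congr' fun n => ?_
  obtain ⟨g, hg, e⟩ := hf n
  constructor
  · rintro ⟨s, hs, h1⟩
    refine ⟨g⁻¹ * s * g, T.S_conj' hg hs, ?_⟩
    rw [e, e] at h1
    rw [Equiv.Perm.mul_apply, Equiv.Perm.mul_apply, ← h1]
    exact (g.symm_apply_apply _).symm
  · rintro ⟨s, hs, h1⟩
    refine ⟨g * s * g⁻¹, T.S_conj n g hg s hs, ?_⟩
    rw [e, e, h1, Equiv.Perm.mul_apply, Equiv.Perm.mul_apply]
    congr 2
    exact (g.symm_apply_apply _).symm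

theorem iso_ks (w : A) : KS T φ' (f w) = (fun K => f '' K) '' KS T φ w := by
  ext K
  constructor
  · rintro ⟨w', hw', rfl, y, hy, hty⟩
    obtain ⟨w₁, rfl⟩ := f.surjective w'
    obtain ⟨y₁, rfl⟩ := f.surjective y
    have h1 : w₁ ∉ Din T φ := fun h => hw' ((iso_din f hf w₁).2 h)
    refine ⟨Cp T φ w₁, ⟨w₁, h1, rfl, y₁, (iso_cp f hf h1 y₁).1 hy, (iso_ty f hf w y₁).1 hty⟩, ?_⟩
    ext z
    obtain ⟨z₁, rfl⟩ := f.surjective z
    simp only [mem_image]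
    constructor
    · rintro ⟨z₂, hz, e⟩
      rw [← f.injective e]
      exact (iso_cp f hf h1 z₂).2 hz
    · intro hz
      exact ⟨z₁, (iso_cp f hf h1 z₁).1 hz, rfl⟩
  · rintro ⟨_, ⟨w₁, h1, rfl, y₁, hy, hty⟩, rfl⟩
    refine ⟨f w₁, fun h => h1 ((iso_din f hf w₁).1 h), ?_, f y₁, (iso_cp f hf h1 y₁).2 hy,
      (iso_ty f hf w y₁).2 hty⟩
    ext z
    obtain ⟨z₁, rfl⟩ := f.surjective z
    simp only [mem_image]
    constructor
    · rintro ⟨z₂, hz, e⟩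
      rw [← f.injective e]
      exact (iso_cp f hf h1 z₂).2 hz
    · intro hz
      exact ⟨z₁, (iso_cp f hf h1 z₁).1 hz, rfl⟩

end iso

/-- **INV** -/
theorem s_INV (_h1 : S_TYP) (h2 : S_CEQ) : S_INV := by
  intro T I' _ γ q P₀ hs hγ hq hP c d φ φ' hφ hφ' h h' hiso k hk
  have h : CmpA φ := h
  have h' : CmpA φ' := h'
  obtain ⟨f, hf⟩ := hiso
  have hal : ∀ (e : ℕ → Bool) (l : ℕ), e l = true →
      {t' | Al (I' := I') e (Sum.inl l, t')} = Set.Iic l := by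
    intro e l he
    ext t
    constructor
    · intro ht
      exact ht l t rfl he
    · intro ht k' t' e' _
      obtain ⟨e1, e2⟩ := Prod.mk.inj e'
      have e3 := Sum.inl.inj e1
      subst e3
      subst e2
      exact ht
  have hj : Al (I' := I') c (Sum.inl k, 0) := by
    intro k' t' e' _
    obtain ⟨_, e2⟩ := Prod.mk.inj e'
    omega
  have hncard : ∀ (e : ℕ → Bool) (l : ℕ), e l = true →
      ((fun t' : ℕ => (Pc (Sum.inl l, t') : Set (AcS T γ q P₀ e))) ''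
        {t' | Al (I' := I') e (Sum.inl l, t')}).ncard = l + 1 := by
    intro e l he
    rw [Set.InjOn.ncard_image, hal e l he]
    · rw [← Nat.card_coe_set_eq]
      simp
    · intro t ht t' ht' e'
      have := pc_inj ht e'
      exact (Prod.mk.inj this).2
  have hw : pc (bs (Sum.inl k, 0) hj : AcS T γ q P₀ c) = some (Sum.inl k, 0) := pc_mk _ _ _
  have e1 := ks_eq h2 h hs hγ hq hP hw
  have n1 : (KS T φ (bs (Sum.inl k, 0) hj : AcS T γ q P₀ c)).ncard = k + 1 := by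
    rw [e1]
    exact hncard c k hk
  have f1 : (KS T φ (bs (Sum.inl k, 0) hj : AcS T γ q P₀ c)).Finite :=
    Set.finite_of_ncard_ne_zero (by rw [n1]; omega)
  have e2 := iso_ks f hf (bs (Sum.inl k, 0) hj)
  have f2 : (KS T φ' (f (bs (Sum.inl k, 0) hj))).Finite := by
    rw [e2]
    exact f1.image _
  have n2 : (KS T φ' (f (bs (Sum.inl k, 0) hj))).ncard = k + 1 := by
    rw [e2, Set.ncard_image_of_injective _ f.injective.image_injective, n1]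
  have hd : f (bs (Sum.inl k, 0) hj) ∉ Din T φ' := fun h3 =>
    not_din h hw ((iso_din f hf _).1 h3)
  rcases hp : pc (f (bs (Sum.inl k, 0) hj)) with _ | ⟨i', t'⟩
  · exfalso
    obtain ⟨v, hm, ev⟩ := exists_inl hp
    have hv : ∀ n, v.1 ∉ T.D n := by
      intro n hn
      apply al_not h' hd n
      rw [ev]
      exact hn
    obtain ⟨i, hi⟩ := hP v.1 v.2 hv
    have hvd : (v.1 : ℕ) ∉ Din T (fun _ => Equiv.refl ℕ) := by
      rintro ⟨n, hn⟩
      exact hv n hn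
    obtain ⟨u, hu, hty⟩ := (h2 T ℕ ℕ ℕ (q i).ψ (fun _ => Equiv.refl ℕ) (q i).ψ (q i).coh coh_refl
      (q i).coh (q i).w v.1 (q i).w (q i).hw hvd hi).1
    have hall : ∀ t, Al d ((Sum.inr i : ℕ ⊕ I'), t) := by
      intro t k' t' e' _
      exact absurd (Prod.mk.inj e').1 (by simp)
    refine ks_inf h' hs _ (Sum.inr i) hall ?_ f2
    intro t
    refine ⟨mk (Sum.inr i, t) (hall t) ⟨u, hu⟩, mem_bs h' hs (Sum.inr i, t) (hall t) ⟨u, hu⟩, ?_⟩
    · rw [ev]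
      exact ((ty_inl h' v hm).trans hty).trans (ty_mk h' (Sum.inr i, t) (hall t) ⟨u, hu⟩).symm
  · rcases i' with l | i
    · cases hdl : d l with
      | false =>
        exfalso
        have hall : ∀ t, Al d ((Sum.inl l : ℕ ⊕ I'), t) := by
          intro t k' t' e' h3
          have e3 := Sum.inl.inj (Prod.mk.inj e').1
          subst e3
          rw [hdl] at h3
          exact absurd h3 (by simp)
        exact ks_inf h' hs _ (Sum.inl l) hall (fun t => ce_same h' hs hp (hall t)) f2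
      | true =>
        have e3 := ks_eq h2 h' hs hγ hq hP hp
        rw [e3, hncard d l hdl] at n2
        have : l = k := by omega
        rw [← this]
        exact hdl
    · exfalso
      have hall : ∀ t, Al d ((Sum.inr i : ℕ ⊕ I'), t) := by
        intro t k' t' e' _
        exact absurd (Prod.mk.inj e').1 (by simp)
      exact ks_inf h' hs _ (Sum.inr i) hall (fun t => ce_same h' hs hp (hall t)) f2

end Pool.Agent.L7h18.UA
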