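import Pool.Agent.L7h66.UA.StmX

/-!
Project UA (helper66), part `SIG`: the dichotomy for `Σ₂` sentences.
-/

set_option autoImplicit false

namespace Pool.Agent.L7h18.UA.Sig

open Set Function MeasureTheory
open Pool.Agent.L7h66.UA

/-- which entries are equal -/
def eqt {k : ℕ} (u : Fin k → ℕ) : Fin k → Fin k → Bool := fun p q => decide (u p = u q)

theorem append_comp {k l : ℕ} (f : ℕ → ℕ) (u : Fin k → ℕ) (v : Fin l → ℕ) :
    f ∘ Fin.append u v = Fin.append (f ∘ u) (f ∘ v) := by
  funext i
  refine Fin.addCases (fun i => ?_) (fun i => ?_) i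
  · simp
  · simp

theorem eqt_comp {k : ℕ} (f : ℕ → ℕ) (u : Fin k → ℕ) (hf : InjOn f (range u)) :
    eqt (f ∘ u) = eqt u := by
  funext p q
  simp only [eqt, comp_apply, decide_eq_decide]
  exact ⟨fun h => hf ⟨p, rfl⟩ ⟨q, rfl⟩ h, fun h => by rw [h]⟩

theorem s_SIG (hL : S_LRC) : S_SIG := by
  intro a K _ _ _ _ k l Q hQ B hB
  refine hL a K B ?_ ?_ ?_
  · have e : B = ⋃ (i : ℕ), ⋃ (u : Fin (k i) → ℕ), ⋂ (j : ℕ), ⋂ (v : Fin (l i j) → ℕ),
        (fun M : XS a K ℕ => (qft M (Fin.append u v), eqt (Fin.append u v))) ⁻¹' (Q i j) := by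
      ext M
      rw [hB]
      simp only [mem_iUnion, mem_iInter, mem_preimage]
      exact Iff.rfl
    rw [e]
    refine MeasurableSet.iUnion fun i => MeasurableSet.iUnion fun u => MeasurableSet.iInter fun j =>
      MeasurableSet.iInter fun v => (hQ i j).preimage ?_
    refine Measurable.prodMk ?_ measurable_const
    refine measurable_pi_lambda _ fun p => measurable_pi_lambda _ fun t => ?_
    exact (measurable_pi_apply _).comp (measurable_pi_apply p)
  · rintro M hM N ⟨e, he⟩
    rw [hB] at hM ⊢
    obtain ⟨i, u, h⟩ := hM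
    refine ⟨i, e ∘ u, fun j v => ?_⟩
    have h1 := h j (e.symm ∘ v)
    have e1 : Fin.append (e ∘ u) v = e ∘ Fin.append u (e.symm ∘ v) := by
      rw [append_comp]
      congr 1
      funext t
      simp
    have e2 : qft N (Fin.append (e ∘ u) v) = qft M (Fin.append u (e.symm ∘ v)) := by
      funext p t
      rw [e1]
      exact he p _
    have e3 : eqt (Fin.append (e ∘ u) v) = eqt (Fin.append u (e.symm ∘ v)) := by
      rw [e1]
      exact eqt_comp _ _ e.injective.injOn
    rw [e2]
    have e4 : (fun p q => decide (Fin.append (e ∘ u) v p = Fin.append (e ∘ u) v q)) =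
      (fun p q => decide (Fin.append u (e.symm ∘ v) p = Fin.append u (e.symm ∘ v) q)) := e3
    rw [e4]
    exact h1
  · intro M hM
    rw [hB] at hM
    obtain ⟨i, u, h⟩ := hM
    refine ⟨Finset.univ.image u, fun N hN => ?_⟩
    rw [hB]
    refine ⟨i, u, fun j v => ?_⟩
    obtain ⟨e, he1, he2, he3⟩ := hN (Finset.univ.image (Fin.append u v))
    have e0 : e ∘ u = u := by
      funext t
      exact he2 _ (Finset.mem_image_of_mem _ (Finset.mem_univ _))
    have e1 : e ∘ Fin.append u v = Fin.append u (e ∘ v) := by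
      rw [append_comp, e0]
    have e2 : qft N (Fin.append u v) = qft M (Fin.append u (e ∘ v)) := by
      funext p t
      rw [← e1]
      refine (he3 p _ fun s => ?_).symm
      exact Finset.mem_image_of_mem _ (Finset.mem_univ _)
    have e3 : eqt (Fin.append u v) = eqt (Fin.append u (e ∘ v)) := by
      rw [← e1]
      refine (eqt_comp _ _ ?_).symm
      refine he1.mono ?_
      rintro _ ⟨t, rfl⟩
      exact Finset.mem_coe.2 (Finset.mem_image_of_mem _ (Finset.mem_univ _))
    have e4 : (fun p q => decide (Fin.append u v p = Fin.append u v q)) =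
      (fun p q => decide (Fin.append u (e ∘ v) p = Fin.append u (e ∘ v) q)) := e3
    rw [e2, e4]
    exact h j (e ∘ v)

end Pool.Agent.L7h18.UA.Sig
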